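import Pool.Agent.Helper65_Jessen.Phi

set_option autoImplicit false

open Filter Topology MeasureTheory

namespace Pool.Agent.Results.MP_5c297c_an.NowhereAffineNotJessen

open Pool.Agent.Helper65_Jessen

/-- `φ` coincides on the set `S` with an affine function `y ↦ ∑ a_j y_j + b`. -/
def AffineOn {n : ℕ} (S : Set (Fin n → ℝ)) (φ : (Fin n → ℝ) → ℝ) : Prop :=
  ∃ (a : Fin n → ℝ) (b : ℝ), ∀ y ∈ S, φ y = ∑ j, a j * y j + b

lemma kink_convex {n : ℕ} (p : Fin n → ℝ) (i₀ i₁ : Fin n) {x y : Fin n → ℝ} {a b : ℝ}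
    (ha : 0 ≤ a) (hb : 0 ≤ b) (hab : a + b = 1) :
    max 0 (((a • x + b • y) i₀ - p i₀) + ((a • x + b • y) i₁ - p i₁) ^ 2) ≤
      a * max 0 ((x i₀ - p i₀) + (x i₁ - p i₁) ^ 2) +
      b * max 0 ((y i₀ - p i₀) + (y i₁ - p i₁) ^ 2) := by
  have h1 : ((a • x + b • y) i₀ - p i₀) + ((a • x + b • y) i₁ - p i₁) ^ 2 ≤
      a * ((x i₀ - p i₀) + (x i₁ - p i₁) ^ 2) + b * ((y i₀ - p i₀) + (y i₁ - p i₁) ^ 2) := by
    have hb' : b = 1 - a := by linarith
    subst hb'
    simp only [Pi.add_apply, Pi.smul_apply, smul_eq_mul]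
    nlinarith [mul_nonneg (mul_nonneg ha hb) (sq_nonneg (x i₁ - y i₁))]
  apply max_le
  · have := le_max_left 0 ((x i₀ - p i₀) + (x i₁ - p i₁) ^ 2)
    have := le_max_left 0 ((y i₀ - p i₀) + (y i₁ - p i₁) ^ 2)
    positivity
  · refine h1.trans ?_
    gcongr
    · exact le_max_right _ _
    · exact le_max_right _ _

lemma phi_convex {n : ℕ} (p : Fin n → ℝ) (i₀ i₁ : Fin n) {G : Set (Fin n → ℝ)}
    (hG : Convex ℝ G) : ConvexOn ℝ G (phi p i₀ i₁) := by
  refine ⟨hG, ?_⟩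
  intro x _ y _ a b ha hb hab
  have h1 := kink_convex p i₀ i₁ (x := x) (y := y) ha hb hab
  have h2 : ∑ j, ((a • x + b • y) j) ^ 2 ≤ a * ∑ j, (x j) ^ 2 + b * ∑ j, (y j) ^ 2 := by
    rw [Finset.mul_sum, Finset.mul_sum, ← Finset.sum_add_distrib]
    apply Finset.sum_le_sum
    intro j _
    have hb' : b = 1 - a := by linarith
    subst hb'
    simp only [Pi.add_apply, Pi.smul_apply, smul_eq_mul]
    nlinarith [mul_nonneg (mul_nonneg ha hb) (sq_nonneg (x j - y j))]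
  simp only [phi, smul_eq_mul]
  linarith

lemma phi_not_affine_segment {n : ℕ} (p : Fin n → ℝ) (i₀ i₁ : Fin n) {u v : Fin n → ℝ}
    (huv : u ≠ v) : ¬ AffineOn (segment ℝ u v) (phi p i₀ i₁) := by
  rintro ⟨a, b, h⟩
  have hu := h u (left_mem_segment ℝ u v)
  have hv := h v (right_mem_segment ℝ u v)
  have hm := h ((1 / 2 : ℝ) • u + (1 / 2 : ℝ) • v)
    ⟨1 / 2, 1 / 2, by norm_num, by norm_num, by norm_num, rfl⟩
  have h1 := kink_convex p i₀ i₁ (x := u) (y := v) (a := 1 / 2) (b := 1 / 2)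
    (by norm_num) (by norm_num) (by norm_num)
  have h2 : ∑ j, (((1 / 2 : ℝ) • u + (1 / 2 : ℝ) • v) j) ^ 2 =
      (1 / 2) * ∑ j, (u j) ^ 2 + (1 / 2) * ∑ j, (v j) ^ 2 - (1 / 4) * ∑ j, (u j - v j) ^ 2 := by
    rw [Finset.mul_sum, Finset.mul_sum, Finset.mul_sum, ← Finset.sum_add_distrib,
      ← Finset.sum_sub_distrib]
    apply Finset.sum_congr rfl
    intro j _
    simp only [Pi.add_apply, Pi.smul_apply, smul_eq_mul]
    ring
  have h3 : 0 < ∑ j, (u j - v j) ^ 2 := by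
    obtain ⟨j, hj⟩ := Function.ne_iff.1 huv
    apply Finset.sum_pos' (fun i _ => sq_nonneg _)
    exact ⟨j, Finset.mem_univ j, by have := sub_ne_zero.2 hj; positivity⟩
  have h4 : ∑ j, a j * ((1 / 2 : ℝ) • u + (1 / 2 : ℝ) • v) j =
      (1 / 2) * ∑ j, a j * u j + (1 / 2) * ∑ j, a j * v j := by
    rw [Finset.mul_sum, Finset.mul_sum, ← Finset.sum_add_distrib]
    apply Finset.sum_congr rfl
    intro j _
    simp only [Pi.add_apply, Pi.smul_apply, smul_eq_mul]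
    ring
  simp only [phi] at hu hv hm
  rw [h2, h4] at hm
  linarith

/-- For every `n ≥ 2` and every nonempty open convex `G ⊆ ℝⁿ` there is a convex function on `G`,
not affine on any nondegenerate segment contained in `G` and not affine on any nonempty open subset
of `G`, which is not a Jessen function. -/
theorem result (n : ℕ) (hn : 2 ≤ n) (G : Set (Fin n → ℝ)) (hGo : IsOpen G) (hGc : Convex ℝ G)
    (hGne : G.Nonempty) :
    ∃ φ : (Fin n → ℝ) → ℝ, ConvexOn ℝ G φ ∧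
      (∀ u v : Fin n → ℝ, u ≠ v → segment ℝ u v ⊆ G → ¬ AffineOn (segment ℝ u v) φ) ∧
      (∀ U : Set (Fin n → ℝ), U ⊆ G → IsOpen U → U.Nonempty → ¬ AffineOn U φ) ∧
      ¬ IsJessenFunction G φ := by
  obtain ⟨p, hp⟩ := hGne
  have h0 : 0 < n := by lia
  have h1 : 1 < n := by lia
  have hne : (⟨0, h0⟩ : Fin n) ≠ ⟨1, h1⟩ := by
    intro h
    have := congrArg Fin.val h
    simp at this
  refine ⟨phi p ⟨0, h0⟩ ⟨1, h1⟩, phi_convex p _ _ hGc, fun u v huv _ =>
    phi_not_affine_segment p _ _ huv, ?_, phi_not_jessen hGo hGc hp hne⟩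
  intro U _ hUo hUne hA
  obtain ⟨u, hu⟩ := hUne
  obtain ⟨δ, hδ, hball⟩ := Metric.isOpen_iff.1 hUo u hu
  set v : Fin n → ℝ := u + fun _ => δ / 2 with hv
  have hvb : v ∈ Metric.ball u δ := by
    rw [Metric.mem_ball, dist_pi_lt_iff hδ]
    intro j
    rw [Real.dist_eq, hv]
    simp only [Pi.add_apply, add_sub_cancel_left]
    rw [abs_of_pos (by positivity)]
    linarith
  have huv : u ≠ v := by
    intro h
    have := congrFun h ⟨0, h0⟩
    rw [hv] at this
    simp only [Pi.add_apply] at this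
    linarith
  have hseg : segment ℝ u v ⊆ U :=
    ((convex_ball u δ).segment_subset (Metric.mem_ball_self hδ) hvb).trans hball
  obtain ⟨a, b, hab⟩ := hA
  exact phi_not_affine_segment p _ _ huv ⟨a, b, fun y hy => hab y (hseg hy)⟩

end Pool.Agent.Results.MP_5c297c_an.NowhereAffineNotJessen
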